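import Pool.Agent.helper24.IC.Spec

/-!
# Row ELI (MP_337222_al): elimination of quantifiers
-/

set_option autoImplicit false

namespace Pool.Agent.IC

universe u

lemma ELI_mul {R : Type u} [Ring R] {M : Type u} [AddCommGroup M] [Module R M] {a b c : ℕ}
    (N₁ : Matrix (Fin a) (Fin b) R) (N₂ : Matrix (Fin b) (Fin c) R) (v : Fin c → M) (i : Fin a) :
    ∑ j, (N₁ * N₂) i j • v j = ∑ l, N₁ i l • ∑ j, N₂ l j • v j := by
  simp only [Matrix.mul_apply, Finset.sum_smul, Finset.smul_sum, mul_smul]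
  rw [Finset.sum_comm]

theorem ELI (hQIM : QIM_stmt.{u}) : ELI_stmt.{u} := by
  intro R _ hR n φ
  obtain ⟨C, hC⟩ := hQIM R hR φ.k φ.m φ.B
  refine ⟨φ.k, φ.A - φ.B * C * φ.A, ?_⟩
  intro M _ _ x
  have hG : ∀ i, ∑ j, (φ.A - φ.B * C * φ.A) i j • x j =
      (∑ j, φ.A i j • x j) - ∑ l, (φ.B * C) i l • ∑ j, φ.A l j • x j := by
    intro i
    rw [← ELI_mul, ← Finset.sum_sub_distrib]
    refine Finset.sum_congr rfl fun j _ => ?_
    rw [Matrix.sub_apply, sub_smul]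
  constructor
  · rintro ⟨y, hy⟩ i
    have ha : ∀ l, ∑ j, φ.A l j • x j = -∑ q, φ.B l q • y q := fun l =>
      eq_neg_of_add_eq_zero_left (hy l)
    rw [hG i, ha i]
    have h2 : ∑ l, (φ.B * C) i l • ∑ j, φ.A l j • x j = -∑ q, φ.B i q • y q := by
      calc ∑ l, (φ.B * C) i l • ∑ j, φ.A l j • x j
          = ∑ l, -((φ.B * C) i l • ∑ q, φ.B l q • y q) := by
            refine Finset.sum_congr rfl fun l _ => ?_
            rw [ha l, smul_neg]
        _ = -∑ l, (φ.B * C) i l • ∑ q, φ.B l q • y q := Finset.sum_neg_distrib _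
        _ = -∑ q, (φ.B * C * φ.B) i q • y q := by rw [← ELI_mul (φ.B * C) φ.B y i]
        _ = -∑ q, φ.B i q • y q := by rw [hC]
    rw [h2]
    exact sub_self _
  · intro h
    refine ⟨fun q => -∑ l, C q l • ∑ j, φ.A l j • x j, fun i => ?_⟩
    have h1 := h i
    rw [hG i] at h1
    have h2 : ∑ q, φ.B i q • (-∑ l, C q l • ∑ j, φ.A l j • x j) =
        -∑ l, (φ.B * C) i l • ∑ j, φ.A l j • x j := by
      rw [ELI_mul φ.B C (fun l => ∑ j, φ.A l j • x j) i, ← Finset.sum_neg_distrib]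
      refine Finset.sum_congr rfl fun q _ => ?_
      rw [smul_neg]
    change ∑ j, φ.A i j • x j + ∑ q, φ.B i q • (-∑ l, C q l • ∑ j, φ.A l j • x j) = 0
    rw [h2, ← sub_eq_add_neg]
    exact h1

end Pool.Agent.IC
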